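import Mathlib
import Pool.Agent.Lib_helper29.SepBPDefs
import Pool.Agent.Lib_helper29.SepBPProofs

set_option autoImplicit false

namespace Pool.Agent.Results.MP_4f31df_lc.RowCol

open Pool.Agent.Lib_helper29.SepBP

/-- `Σ₂^p` contains a separating function: the row-and-column function has polynomial-size DNFs,
both it and its negation have polynomial-size nondeterministic read-once branching programs, but it
has no polynomial-size deterministic read-once branching programs; in fact all such programs for it
have at least `2 ^ z` nodes whenever `(4 z² + 2)² ≤ n`. -/
theorem result : PolyDNF rowCol ∧ Separating rowCol ∧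
    ∀ n z : ℕ, (4 * z ^ 2 + 2) ^ 2 ≤ n → ∀ P : BP n,
      P.Deterministic → P.ReadOnce → P.Computes (rowCol n) → 2 ^ z ≤ P.size :=
  main

end Pool.Agent.Results.MP_4f31df_lc.RowCol
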